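import Pool.Agent.helper69.DH.SpecR2

set_option autoImplicit false

open Filter Topology MeasureTheory
open scoped commutatorElement

namespace Pool.Agent.helper90.DH

open Pool.Agent.helper64.D2

/-- the points `X i` are near the images of all levels -/
theorem ROU_near {K0 : ℝ} {w0 a q s0 S m0 : ℕ} {cm : ℕ → ℕ → DD} {σ : ℕ → ℕ} {δ : ℝ} (hH : HY K0 w0 a q s0 S m0 cm σ δ) (hs0 : 300 ≤ s0)
    (c : ℕ → DD) (hc : ∀ i < q, ∀ x, |ev (c i) x - ev (cm S i) x| ≤ 1 / 2 ^ (σ S + 2)) (t : ℕ → ℝ) (ht : ∀ i, |t i| ≤ 1 / 2 ^ (σ S + 2)) (x : ℝ)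
    (s i : ℕ) (hs : s0 ≤ s) (hsS : s ≤ S) (hi : i < q) :
    |ev (c i) x + t i - ev (cm s i) x| ≤ 1 / 2 ^ σ s ∧ (1 : ℝ) / 2 ^ σ s ≤ 1 / 2 ^ 27 / 2 ^ s := by
  obtain ⟨h1, h2⟩ := hH
  obtain ⟨-, hσ, -, -⟩ := h1 s hs hsS
  obtain ⟨h3, h4⟩ := h2 s S hs hsS le_rfl
  have h5 := h4 i hi x
  have h6 := hc i hi x
  have h7 := ht i
  have h8 : (1 : ℝ) / 2 ^ (σ S + 2) ≤ 1 / 2 ^ (σ s + 2) :=
    one_div_le_one_div_of_le (by positivity) (pow_le_pow_right₀ (by norm_num) (by omega))
  have h9 : (1 : ℝ) / 2 ^ (σ s + 2) = 1 / 4 * (1 / 2 ^ σ s) := by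
    rw [pow_add]
    field_simp
    norm_num
  constructor
  · have e : ev (c i) x + t i - ev (cm s i) x = (ev (c i) x - ev (cm S i) x) + t i + (ev (cm S i) x - ev (cm s i) x) := by ring
    rw [e]
    have h10 := abs_add_three (ev (c i) x - ev (cm S i) x) (t i) (ev (cm S i) x - ev (cm s i) x)
    have h11 : (0 : ℝ) < 1 / 2 ^ σ s := by positivity
    linarith
  · have h12 : (1 : ℝ) / 2 ^ 27 / 2 ^ s = 1 / 2 ^ (27 + s) := by
      rw [pow_add]
      field_simp
    rw [h12]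
    exact one_div_le_one_div_of_le (by positivity) (pow_le_pow_right₀ (by norm_num) (by omega))

theorem ROU (hRHY : rRHY_stmt) (hEXT : rEXT_stmt) (hWTB : rWTB_stmt) (hWTU : rWTU_stmt) (hLOD : rLOD_stmt) (hSLF : rSLF_stmt) (hPLF : rPLF_stmt)
    (hBAS : rBAS_stmt) : ROU_stmt := by
  intro K0 m0 hK0
  obtain ⟨a, w1, hR⟩ := hRHY K0 m0 hK0
  obtain ⟨q1, hS1⟩ := hSLF m0
  refine ⟨a, w1, 1 / 2 ^ 29, 2 ^ 21, by positivity, by norm_num, fun w0 hw0 => (hR w0 hw0).1, ?_⟩
  intro w0 hw0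
  obtain ⟨haL, hw30, q0, hq0⟩ := hR w0 hw0
  refine ⟨max q0 q1, ?_⟩
  intro q s0 hq hs cm σ y N hPA hsup hbd S D hs0S hSN hH
  obtain ⟨h10, hrest⟩ := hq0 q s0 ((le_max_left _ _).trans hq) ((le_max_left _ _).trans hs)
  have hyh : rYH N y := ⟨hPA, hsup, hbd⟩
  obtain ⟨hRS, hBd⟩ := hrest N S cm σ y hyh hH
  set P := rPP q s0 w0 a cm y with hP
  have hs0300 : 300 ≤ s0 := by omega
  have hq1 : 1 ≤ q := hRS.1.1
  have hqpos : (0 : ℝ) < q := by exact_mod_cast hq1
  obtain ⟨hPL, -⟩ := hPLF N s0 y hyh (by omega)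
  have hd100 : (2 : ℝ) ^ (w0 + 3) / 2 ^ s0 ≤ 1 / 100 := by
    have h1 : (2 : ℝ) ^ (w0 + 3) * 2 ^ 7 ≤ 2 ^ s0 := by
      rw [← pow_add]
      exact pow_le_pow_right₀ (by norm_num) (by omega)
    rw [div_le_div_iff₀ (by positivity) (by norm_num), one_mul]
    have hpos : (0 : ℝ) < 2 ^ (w0 + 3) := by positivity
    calc (2 : ℝ) ^ (w0 + 3) * 100 ≤ 2 ^ (w0 + 3) * 2 ^ 7 := mul_le_mul_of_nonneg_left (by norm_num) hpos.le
      _ ≤ 2 ^ s0 := h1
  have hDs : ∀ s, s0 ≤ s → ∀ x, Ds s y x = us s0 (s + 1) y x - us s0 s y x := fun s hs => (hPL s hs).2.1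
  have hFF : rFF P S (fun s => us s0 s y) := by
    constructor
    · intro s t hs' _ ht' _ x
      exact ((hPL s hs').1 x).2.2 t ht'
    · intro s hs' _ x hx
      have e1 := ((hPL s hs').2.2.1 x hx).1
      have e2 := ((hPL (s + 1) (le_trans hs' (Nat.le_succ s))).2.2.1 x hx).1
      show us s0 (s + 1) y x = us s0 s y x
      rw [e1, e2]
  refine ⟨fun hROK => hEXT P S hRS D hROK, ?_⟩
  intro hROK
  refine ⟨?_, ?_, ?_⟩
  · intro s k hs' hsS
    obtain ⟨e1, e2⟩ := hWTB P S hRS D hROK s k hs' hsS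
    refine ⟨e1, fun i _ => ?_⟩
    rw [abs_of_nonneg (e2 i).1]
    exact (e2 i).2
  · intro i hi x
    have e1 := hWTU P S hs0S hRS D hROK _ hFF i hi x
    have e2 : vf q s0 (S + 1) (fun s k => rwt P D s i k) y x = Es s0 y x / q + ∑ s ∈ Finset.Ico s0 (S + 1), rwt P D s i (ci s x) * (us s0 (s + 1) y x - us s0 s y x) := by
      unfold vf
      congr 1
      refine Finset.sum_congr rfl (fun s hs' => ?_)
      rw [Finset.mem_Ico] at hs'
      rw [hDs s hs'.1]
    rw [e2]
    have e3 : |Es s0 y x| ≤ 4 := ((hPL s0 le_rfl).1 x).1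
    have e4 : |Es s0 y x / q| ≤ 4 / q := by
      rw [abs_div, abs_of_pos hqpos]
      exact div_le_div_of_nonneg_right e3 hqpos.le
    have e5 : |∑ s ∈ Finset.Ico s0 (S + 1), rwt P D s i (ci s x) * (us s0 (s + 1) y x - us s0 s y x)| ≤ 2 ^ 20 / (q : ℝ) := e1
    have e6 := abs_add_le (Es s0 y x / q) (∑ s ∈ Finset.Ico s0 (S + 1), rwt P D s i (ci s x) * (us s0 (s + 1) y x - us s0 s y x))
    have e7 : 4 / (q : ℝ) + 2 ^ 20 / (q : ℝ) ≤ 2 ^ 21 / (q : ℝ) := by
      rw [← add_div]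
      exact div_le_div_of_nonneg_right (by norm_num) hqpos.le
    linarith
  · intro c hc t ht x
    set X : ℕ → ℝ := fun i => ev (c i) x + t i with hX
    have hnear := fun s i (hs' : s0 ≤ s) (hsS : s ≤ S) (hi : i < q) => ROU_near hH hs0300 c hc t ht x s i hs' hsS hi
    have hNP : rNP P S x X := by
      intro i hi s hs' hsS
      obtain ⟨h1, h2⟩ := hnear s i hs' hsS hi
      exact h1.trans h2
    have hF4 : ∀ s, P.s0 ≤ s → s ≤ S → ci s x ∉ P.T s → rF4 P (fun s => us s0 s y) X s := by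
      intro s hs' hsS hT
      by_cases hx : -1 ≤ x ∧ x < 2
      · -- not in the bad set
        have hnb : x ∉ BdS q (cm s) s0 (s0 + w0 - a * LL w0) (1 / 2 ^ 25) y s := by
          intro hmem
          by_cases hsS1 : s < s0 + w0 - a * LL w0
          · rw [hBd s hs' hsS hsS1] at hmem
            exact hmem
          · apply hT
            show ci s x ∈ rTB q (cm s) s0 (s0 + w0 - a * LL w0) y s
            unfold rTB
            classical
            refine Finset.mem_filter.2 ⟨hBAS.2.2.2.2.2.2.2.2.2 s x hx.1 hx.2, not_lt.1 hsS1, x, ?_, hmem⟩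
            have h1 := (hBAS.2.2.2.2.2.1 s (ci s x) x).1 rfl
            refine ⟨h1.1, ?_⟩
            have h2 := h1.2
            unfold rlp at h2
            rw [add_div]
            exact h2
        have hb1 : |Mop q (cm s) (fun z => Es s y z - Es s0 y z) x| ≤ 1 / 2 ^ 25 := by
          by_contra hcon
          exact hnb (Or.inl (not_le.1 hcon))
        have hb2 : |Mop q (cm s) (fun z => Es (s + 1) y z - Es s0 y z) x| ≤ 1 / 2 ^ 25 := by
          by_contra hcon
          exact hnb (Or.inr (Or.inl (not_le.1 hcon)))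
        have hb3 : s0 + w0 - a * LL w0 ≤ s → |Mop q (cm s) (fun z => fr s z * Ds s y z) x| ≤ 1 / 2 ^ 25 := by
          intro hle
          by_contra hcon
          exact hnb (Or.inr (Or.inr ⟨hle, not_le.1 hcon⟩))
        have hconv : ∀ g : ℝ → ℝ, |Mop q (cm s) g x| ≤ 1 / 2 ^ 25 → |∑ i ∈ Finset.range q, g (ev (cm s i) x)| ≤ q / 2 ^ 25 := by
          intro g hg
          unfold Mop at hg
          rw [abs_div, abs_of_pos hqpos, div_le_iff₀ hqpos] at hg
          calc |∑ i ∈ Finset.range q, g (ev (cm s i) x)| ≤ 1 / 2 ^ 25 * q := hg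
            _ = q / 2 ^ 25 := by ring
        obtain ⟨k1, k2, k3⟩ := hS1 q s0 ((le_max_right _ _).trans hq) ((le_max_right _ _).trans hs) K0 (1 / 2 ^ 29) w0 a N S cm σ y hyh hH hd100 s hs' hsS x X
          (fun i hi => (hnear s i hs' hsS hi).1)
        have c1 := hconv _ hb1
        have c2 := hconv _ hb2
        have hsum : ∀ A B : ℝ, |B| ≤ (q : ℝ) / 2 ^ 25 → |A - B| ≤ (q : ℝ) / 2 ^ 27 → |A| ≤ (q : ℝ) / 2 ^ 24 := by
          intro A B hB hAB
          have h1 : |A| ≤ |A - B| + |B| := by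
            have := abs_add_le (A - B) B
            rwa [sub_add_cancel] at this
          have h2 : (q : ℝ) / 2 ^ 27 + q / 2 ^ 25 ≤ q / 2 ^ 24 := by
            have : (q : ℝ) / 2 ^ 24 - (q / 2 ^ 27 + q / 2 ^ 25) = q * (1 / 2 ^ 24 - 1 / 2 ^ 27 - 1 / 2 ^ 25) := by ring
            have h3 : (0 : ℝ) ≤ q * (1 / 2 ^ 24 - 1 / 2 ^ 27 - 1 / 2 ^ 25) := mul_nonneg hqpos.le (by norm_num)
            linarith
          linarith
        refine ⟨hsum _ _ c1 k1, hsum _ _ c2 k2, ?_⟩
        intro hle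
        have c3 := hconv _ (hb3 hle)
        have h4 := hsum _ _ c3 k3
        have h5 : ∑ i ∈ Finset.range P.q, fr s (X i) * (us s0 (s + 1) y (X i) - us s0 s y (X i)) = ∑ i ∈ Finset.range q, fr s (X i) * Ds s y (X i) :=
          Finset.sum_congr rfl (fun i _ => by rw [hDs s hs'])
        show |∑ i ∈ Finset.range P.q, fr s (X i) * (us s0 (s + 1) y (X i) - us s0 s y (X i))| ≤ q / 2 ^ 24
        rw [h5]
        exact h4
      · -- far away all the values vanish
        have hfar : ∀ i < q, X i ∉ Set.Ico (9 / 32 : ℝ) (23 / 32) := by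
          intro i hi hmem
          obtain ⟨h1, h2⟩ := hnear s i hs' hsS hi
          have h3 := ((hH.1 s hs' hsS).1 i hi).2 x
          have h4 : |X i - x| ≤ 1 / 2 := by
            have e : X i - x = (ev (c i) x + t i - ev (cm s i) x) + (ev (cm s i) x - x) := by
              rw [hX]
              ring
            rw [e]
            have h5 := abs_add_le (ev (c i) x + t i - ev (cm s i) x) (ev (cm s i) x - x)
            have h6 : (1 : ℝ) / 2 ^ 27 / 2 ^ s ≤ 1 / 4 := by
              rw [div_div, div_le_div_iff₀ (by positivity) (by norm_num)]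
              have : (1 : ℝ) ≤ 2 ^ s := one_le_pow₀ (by norm_num)
              nlinarith
            linarith
          rw [abs_le] at h4
          apply hx
          constructor
          · linarith [hmem.1, h4.1, h4.2]
          · linarith [hmem.2, h4.1, h4.2]
        have hz : ∀ r, s0 ≤ r → ∀ i ∈ Finset.range q, us s0 r y (X i) = 0 := by
          intro r hr i hi
          exact ((hPL r hr).2.2.1 _ (hfar i (Finset.mem_range.1 hi))).1
        have hq24 : (0 : ℝ) ≤ (q : ℝ) / 2 ^ 24 := by positivity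
        refine ⟨?_, ?_, ?_⟩
        · show |∑ i ∈ Finset.range q, us s0 s y (X i)| ≤ q / 2 ^ 24
          rw [Finset.sum_eq_zero (hz s hs'), abs_zero]
          exact hq24
        · show |∑ i ∈ Finset.range q, us s0 (s + 1) y (X i)| ≤ q / 2 ^ 24
          rw [Finset.sum_eq_zero (hz (s + 1) (le_trans hs' (Nat.le_succ s))), abs_zero]
          exact hq24
        · intro _
          show |∑ i ∈ Finset.range q, fr s (X i) * (us s0 (s + 1) y (X i) - us s0 s y (X i))| ≤ q / 2 ^ 24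
          rw [Finset.sum_eq_zero (fun i hi => by rw [hz s hs' i hi, hz (s + 1) (le_trans hs' (Nat.le_succ s)) i hi, sub_zero, mul_zero]), abs_zero]
          exact hq24
    have hL := hLOD P S hs0S hRS D hROK x X hNP (fun s => us s0 s y) hFF hF4
    have e1 : ∑ i ∈ Finset.range q, (vf q s0 (S + 1) (fun s k => rwt P D s i k) y (ev (c i) x + t i) - Es s0 y (ev (c i) x + t i) / q) =
        ∑ i ∈ Finset.range P.q, ∑ s ∈ Finset.Ico P.s0 (S + 1), rwt P D s i (ci s (X i)) * (us s0 (s + 1) y (X i) - us s0 s y (X i)) := by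
      refine Finset.sum_congr rfl (fun i _ => ?_)
      unfold vf
      rw [add_sub_cancel_left]
      refine Finset.sum_congr rfl (fun s hs' => ?_)
      rw [Finset.mem_Ico] at hs'
      rw [hDs s hs'.1]
    rw [e1]
    refine hL.trans (by norm_num)

end Pool.Agent.helper90.DH
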